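import Pool.Agent.Work.MP_eb7862_gt.Examples
import Pool.Agent.Work.MP_eb7862_gt.Cp

universe u

namespace Pool.Agent.Work.MP_eb7862_gt.Old.PFProducts

open Pool.Agent.Work.MP_eb7862_gt

/-- Every continuous Hausdorff image `X` of a product of PF compacta is a continuous image of a
homogeneous compactum `Y`, and composition with the surjection is a linear topological embedding
of `C_p(X)` in `C_p(Y)`. -/
theorem result {ι : Type u} (F : ι → Type u) [∀ i, TopologicalSpace (F i)]
    [∀ i, CompactSpace (F i)] [∀ i, T2Space (F i)] (hF : ∀ i, PF (F i))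
    (X : Type u) [TopologicalSpace X] [T2Space X]
    (p : (∀ i, F i) → X) (hp : Continuous p) (hs : Function.Surjective p) :
    ∃ (Y : Type u) (_ : TopologicalSpace Y), CompactSpace Y ∧ T2Space Y ∧
      (∀ y y' : Y, ∃ h : Y ≃ₜ Y, h y = y') ∧
      ∃ q : Y → X, Continuous q ∧ Function.Surjective q ∧
        ∃ T : continuousSubmodule X ℝ ℝ →ₗ[ℝ] continuousSubmodule Y ℝ ℝ,
          Topology.IsEmbedding T ∧ ∀ f y, (T f).1 y = f.1 (q y) := by
  obtain ⟨Y, _, h1, h2, h3, q, hq, hq'⟩ := exists_homogeneous_onto_pi hF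
  exact ⟨Y, inferInstance, h1, h2, h3, p ∘ q, hp.comp hq, hs.comp hq',
    exists_linear_embedding _ (hp.comp hq) (hs.comp hq')⟩

end Pool.Agent.Work.MP_eb7862_gt.Old.PFProducts
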